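import Mathlib

/-!
# MP_533548_gt: the frozen statement S13173 from abstract data
-/

set_option autoImplicit false

namespace Helper50.FM

/-- realization of a list of simplices (the set in the frozen statement) -/
def SL (L : List (List ℕ)) : Set (ℕ → ℝ) :=
  {x | ∃ s ∈ L, (∀ i, 0 ≤ x i) ∧ (∀ i, i ∉ s → x i = 0) ∧ ∑ i ∈ s.toFinset, x i = 1}

/-- the list is a triangulated closed connected 4-manifold with the given fundamental group -/
structure GoodL {n : ℕ} (rels : Finset (FreeGroup (Fin n))) (L : List (List ℕ)) : Prop where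
  conn : ConnectedSpace (SL L)
  loc : ∀ x : SL L, ∃ U : Set (SL L), IsOpen U ∧ x ∈ U ∧
    Nonempty (U ≃ₜ EuclideanSpace ℝ (Fin 4))
  pi : ∃ x : SL L, Nonempty (FundamentalGroup (SL L) x ≃*
    PresentedGroup (rels : Set (FreeGroup (Fin n))))

theorem final_of_data
    (h : ∃ (n : ℕ) (rels : Finset (FreeGroup (Fin n))) (F : ℕ → List (List ℕ))
      (L0 : List (List ℕ)) (p : ℕ → Prop), Computable F ∧ ¬ ComputablePred p ∧ GoodL rels L0 ∧
      (∀ k, GoodL rels (F k)) ∧ ∀ k, Nonempty (SL (F k) ≃ₜ SL L0) ↔ p k) :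
  ∃ (n : ℕ) (rels : Finset (FreeGroup (Fin n))),
    ¬ ∃ f : List (List ℕ) → List (List ℕ) →. Bool, Partrec₂ f ∧
      ∀ (K₁ K₂ : List (List ℕ)) (S₁ S₂ : Set (ℕ → ℝ)),
        S₁ = {x : ℕ → ℝ | ∃ s ∈ K₁, (∀ i, 0 ≤ x i) ∧ (∀ i, i ∉ s → x i = 0) ∧
              ∑ i ∈ s.toFinset, x i = 1} →
        S₂ = {x : ℕ → ℝ | ∃ s ∈ K₂, (∀ i, 0 ≤ x i) ∧ (∀ i, i ∉ s → x i = 0) ∧
              ∑ i ∈ s.toFinset, x i = 1} →
        ConnectedSpace S₁ → ConnectedSpace S₂ →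
        (∀ x : S₁, ∃ U : Set S₁, IsOpen U ∧ x ∈ U ∧
            Nonempty (U ≃ₜ EuclideanSpace ℝ (Fin 4))) →
        (∀ x : S₂, ∃ U : Set S₂, IsOpen U ∧ x ∈ U ∧
            Nonempty (U ≃ₜ EuclideanSpace ℝ (Fin 4))) →
        (∃ x : S₁, Nonempty (FundamentalGroup S₁ x ≃*
            PresentedGroup (rels : Set (FreeGroup (Fin n))))) →
        (∃ x : S₂, Nonempty (FundamentalGroup S₂ x ≃*
            PresentedGroup (rels : Set (FreeGroup (Fin n))))) →
        ((true ∈ f K₁ K₂ ↔ Nonempty (S₁ ≃ₜ S₂)) ∧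
         (false ∈ f K₁ K₂ ↔ IsEmpty (S₁ ≃ₜ S₂))) := by
  classical
  obtain ⟨n, rels, F, L0, p, hF, hp, h0, hk, hiff⟩ := h
  refine ⟨n, rels, ?_⟩
  rintro ⟨f, hf, H⟩
  apply hp
  have key : ∀ k, (true ∈ f (F k) L0 ↔ p k) ∧ (false ∈ f (F k) L0 ↔ ¬ p k) := by
    intro k
    have := H (F k) L0 (SL (F k)) (SL L0) rfl rfl (hk k).conn h0.conn (hk k).loc h0.loc
      (hk k).pi h0.pi
    refine ⟨this.1.trans (hiff k), this.2.trans ?_⟩
    rw [← hiff k, not_nonempty_iff]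
  have hpart : Partrec fun k => f (F k) L0 :=
    hf.comp hF (Computable.const L0)
  refine ⟨fun k => Classical.dec _, ?_⟩
  refine Partrec.of_eq_tot hpart ?_
  intro k
  by_cases h1 : p k
  · have := (key k).1.2 h1
    simpa [h1] using this
  · have := (key k).2.2 h1
    simpa [h1] using this

end Helper50.FM
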