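import Mathlib

/-!
# MP_533548_gt: basic definitions

Cells of the cubulation of `ℝ^5` are points of `ℤ^5` (doubled coordinates): an even coordinate `2n`
stands for the point `n`, an odd coordinate `2n+1` for the open interval `(n, n+1)`.
-/

set_option autoImplicit false

namespace Helper50.FM

/-- cells, in doubled coordinates -/
abbrev Cell := Fin 5 → ℤ

/-- `x` is a face of `y` -/
def Face (x y : Cell) : Prop := ∀ i, x i = y i ∨ (Odd (y i) ∧ (x i = y i + 1 ∨ x i = y i - 1))

theorem Face.refl (x : Cell) : Face x x := fun _ => Or.inl rfl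

theorem Face.trans {x y z : Cell} (h : Face x y) (h' : Face y z) : Face x z := by
  intro i
  rcases h i with h1 | ⟨h1, h2⟩
  · rw [h1]; exact h' i
  · rcases h' i with h3 | ⟨h3, h4⟩
    · right; rw [← h3]; exact ⟨h1, h2⟩
    · exfalso
      rcases h3 with ⟨a, ha⟩
      rcases h1 with ⟨b, hb⟩
      omega

theorem Face.antisymm {x y : Cell} (h : Face x y) (h' : Face y x) : x = y := by
  funext i
  rcases h i with h1 | ⟨⟨a, ha⟩, h2⟩
  · exact h1
  · rcases h' i with h3 | ⟨⟨b, hb⟩, h4⟩
    · exact h3.symm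
    · omega

/-- the number of odd coordinates -/
def dim (x : Cell) : ℕ := (Finset.univ.filter fun i => Odd (x i)).card

/-- a set of cells closed under faces -/
def IsCplx (K : Set Cell) : Prop := ∀ y ∈ K, ∀ x, Face x y → x ∈ K

/-- periods: `0` (no periodicity) or an even number at least `6` -/
structure Per where
  p : Fin 5 → ℕ
  even : ∀ i, Even (p i)
  big : ∀ i, p i = 0 ∨ 6 ≤ p i

namespace Per

/-- the lattice of periods -/
def Lat (P : Per) (u : Cell) : Prop := ∀ i, (P.p i : ℤ) ∣ u i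

/-- all periods multiplied by a positive number -/
def mul (P : Per) (m : ℕ) (hm : 0 < m) : Per where
  p i := m * P.p i
  even i := (P.even i).mul_left m
  big i := by
    rcases P.big i with h | h
    · left; rw [h]; simp
    · right; nlinarith

/-- all periods doubled -/
def dbl (P : Per) : Per := P.mul 2 (by norm_num)

end Per

/-- invariance under the lattice -/
def IsPer (P : Per) (Q : Set Cell) : Prop := ∀ x ∈ Q, ∀ u : Cell, P.Lat u → x + u ∈ Q

/-- the periodic set spanned by `A` -/
def per (P : Per) (A : Set Cell) : Set Cell := {x | ∃ a ∈ A, ∃ u : Cell, P.Lat u ∧ x = a + u}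

/-- classes of cells modulo the lattice -/
def VA (P : Per) : Type := ∀ i, ZMod (P.p i)

/-- the class of a cell -/
def mk (P : Per) (x : Cell) : VA P := fun i => (x i : ZMod (P.p i))

theorem mk_eq_mk {P : Per} {x y : Cell} :
    mk P x = mk P y ↔ ∃ u : Cell, P.Lat u ∧ y = x + u := by
  constructor
  · intro h
    refine ⟨y - x, fun i => ?_, by abel⟩
    have := congrFun h i
    exact (ZMod.intCast_eq_intCast_iff_dvd_sub _ _ _).1 this
  · rintro ⟨u, hu, rfl⟩
    funext i
    refine (ZMod.intCast_eq_intCast_iff_dvd_sub _ _ _).2 ?_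
    simpa using hu i

theorem mk_surjective (P : Per) : Function.Surjective (mk P) := by
  intro v
  choose x hx using fun i => ZMod.intCast_surjective (v i)
  exact ⟨x, funext hx⟩

theorem Face.add {x y : Cell} {P : Per} {u : Cell} (h : Face x y) (hu : P.Lat u) :
    Face (x + u) (y + u) := by
  intro i
  have h2 : Even (u i) := by
    rcases hu i with ⟨k, hk⟩
    rw [hk]
    exact Even.mul_right (by exact_mod_cast P.even i) k
  rcases h i with h1 | ⟨h1, h3⟩
  · left; simp [h1]
  · right
    refine ⟨by simpa using h1.add_even h2, ?_⟩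
    simp only [Pi.add_apply]
    omega

theorem Per.Lat.neg {P : Per} {u : Cell} (h : P.Lat u) : P.Lat (-u) := by
  intro i
  simpa using h i

theorem Per.Lat.add {P : Per} {u v : Cell} (h : P.Lat u) (h' : P.Lat v) : P.Lat (u + v) := by
  intro i
  exact dvd_add (h i) (h' i)

theorem Per.Lat.zero {P : Per} : P.Lat 0 := by
  intro i
  simp

/-- two cells in the same class which are faces of each other up to the lattice have equal parity -/
theorem dim_add {P : Per} {x u : Cell} (hu : P.Lat u) : dim (x + u) = dim x := by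
  unfold dim
  congr 1
  ext i
  have h2 : Even (u i) := by
    rcases hu i with ⟨k, hk⟩
    rw [hk]
    exact Even.mul_right (by exact_mod_cast P.even i) k
  simp [Int.odd_add, h2]

theorem Face.dim_le {x y : Cell} (h : Face x y) : dim x ≤ dim y := by
  unfold dim
  refine Finset.card_le_card ?_
  intro i
  simp only [Finset.mem_filter, Finset.mem_univ, true_and]
  intro hi
  rcases h i with h1 | ⟨h1, -⟩
  · rwa [← h1]
  · exact h1

theorem Face.eq_of_dim {x y : Cell} (h : Face x y) (hd : dim y ≤ dim x) : x = y := by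
  have hsub : (Finset.univ.filter fun i => Odd (x i)) ⊆ (Finset.univ.filter fun i => Odd (y i)) := by
    intro i
    simp only [Finset.mem_filter, Finset.mem_univ, true_and]
    intro hi
    rcases h i with h1 | ⟨h1, -⟩
    · rwa [← h1]
    · exact h1
  have heq := Finset.eq_of_subset_of_card_le hsub hd
  funext i
  rcases h i with h1 | ⟨h1, h3⟩
  · exact h1
  · exfalso
    have : i ∈ (Finset.univ.filter fun i => Odd (x i)) := by
      rw [heq]; simpa using h1
    simp only [Finset.mem_filter, Finset.mem_univ, true_and] at this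
    rcases this with ⟨a, ha⟩
    rcases h1 with ⟨b, hb⟩
    omega

instance (P : Per) : PartialOrder (VA P) where
  le v w := ∃ x y, mk P x = v ∧ mk P y = w ∧ Face x y
  le_refl v := by
    obtain ⟨x, hx⟩ := mk_surjective P v
    exact ⟨x, x, hx, hx, Face.refl x⟩
  le_trans v w z := by
    rintro ⟨x, y, hx, hy, h⟩ ⟨y', z', hy', hz', h'⟩
    obtain ⟨u, hu, hyu⟩ := mk_eq_mk.1 (hy'.trans hy.symm)
    refine ⟨x, z' + u, hx, ?_, ?_⟩
    · rw [← hz']; exact (mk_eq_mk.2 ⟨u, hu, rfl⟩).symm
    · rw [hyu] at h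
      exact h.trans (h'.add hu)
  le_antisymm v w := by
    rintro ⟨x, y, hx, hy, h⟩ ⟨y', x', hy', hx', h'⟩
    obtain ⟨u, hu, hyu⟩ := mk_eq_mk.1 (hy'.trans hy.symm)
    obtain ⟨w', hw', hxw⟩ := mk_eq_mk.1 (hx'.trans hx.symm)
    have h1 : dim y ≤ dim x := by
      rw [hyu, hxw, dim_add hu, dim_add hw']
      exact h'.dim_le
    rw [← hx, ← hy, h.eq_of_dim h1]

theorem VA.le_iff {P : Per} {v w : VA P} :
    v ≤ w ↔ ∃ x y, mk P x = v ∧ mk P y = w ∧ Face x y := Iff.rfl

/-- the classes of the cells of `Q` -/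
def VQ (P : Per) (Q : Set Cell) : Type := {v : VA P // ∃ x ∈ Q, mk P x = v}

instance (P : Per) (Q : Set Cell) : PartialOrder (VQ P Q) :=
  inferInstanceAs (PartialOrder {v : VA P // ∃ x ∈ Q, mk P x = v})

/-- the class of a cell of `Q` -/
def mkQ (P : Per) {Q : Set Cell} (x : Cell) (hx : x ∈ Q) : VQ P Q := ⟨mk P x, x, hx, rfl⟩

/-- `x ≤ y` for classes, with a given lift of the smaller one -/
theorem le_lift_left {P : Per} {x : Cell} {w : VA P} (h : mk P x ≤ w) :
    ∃ y, mk P y = w ∧ Face x y := by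
  obtain ⟨x', y', hx, hy, hf⟩ := h
  obtain ⟨u, hu, hxu⟩ := mk_eq_mk.1 hx
  refine ⟨y' + u, ?_, ?_⟩
  · rw [← hy]; exact (mk_eq_mk.2 ⟨u, hu, rfl⟩).symm
  · rw [hxu]; exact hf.add hu

/-- `x ≤ y` for classes, with a given lift of the bigger one -/
theorem le_lift_right {P : Per} {v : VA P} {y : Cell} (h : v ≤ mk P y) :
    ∃ x, mk P x = v ∧ Face x y := by
  obtain ⟨x', y', hx, hy, hf⟩ := h
  obtain ⟨u, hu, hyu⟩ := mk_eq_mk.1 hy
  refine ⟨x' + u, ?_, ?_⟩
  · rw [← hx]; exact (mk_eq_mk.2 ⟨u, hu, rfl⟩).symm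
  · rw [hyu]; exact hf.add hu

theorem mk_le_mk_of_face {P : Per} {x y : Cell} (h : Face x y) : mk P x ≤ mk P y :=
  ⟨x, y, rfl, rfl, h⟩

/-- a class of an invariant set: every lift is in the set -/
theorem mem_of_mk {P : Per} {Q : Set Cell} (hQ : IsPer P Q) {x y : Cell} (hx : x ∈ Q)
    (h : mk P x = mk P y) : y ∈ Q := by
  obtain ⟨u, hu, rfl⟩ := mk_eq_mk.1 h
  exact hQ x hx u hu

/-- faces of a cell with the same class are equal -/
theorem face_unique_right {P : Per} {x y y' : Cell} (h : Face x y) (h' : Face x y')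
    (he : mk P y = mk P y') : y = y' := by
  obtain ⟨u, hu, rfl⟩ := mk_eq_mk.1 he
  have h0 : u = 0 := by
    funext i
    have h1 := h i
    have h2 := h' i
    have h3 : |u i| ≤ 2 := by
      rw [abs_le]
      simp only [Pi.add_apply] at h2
      constructor <;> omega
    rcases P.big i with h4 | h4
    · have := hu i
      rw [h4] at this
      simpa using this
    · exact Int.eq_zero_of_abs_lt_dvd (hu i) (by
        have : (6 : ℤ) ≤ (P.p i : ℤ) := by exact_mod_cast h4
        linarith)
  rw [h0]; simp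

theorem face_unique_left {P : Per} {x x' y : Cell} (h : Face x y) (h' : Face x' y)
    (he : mk P x = mk P x') : x = x' := by
  obtain ⟨u, hu, rfl⟩ := mk_eq_mk.1 he
  have h0 : u = 0 := by
    funext i
    have h1 := h i
    have h2 := h' i
    have h3 : |u i| ≤ 2 := by
      rw [abs_le]
      simp only [Pi.add_apply] at h2
      constructor <;> omega
    rcases P.big i with h4 | h4
    · have := hu i
      rw [h4] at this
      simpa using this
    · exact Int.eq_zero_of_abs_lt_dvd (hu i) (by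
        have : (6 : ℤ) ≤ (P.p i : ℤ) := by exact_mod_cast h4
        linarith)
  rw [h0]; simp

/-! ## Realizations -/

/-- geometric realization of the order complex of `V` -/
def Rz (V : Type) [PartialOrder V] : Set (V → ℝ) :=
  {x | (∀ v, 0 ≤ x v) ∧ ∑ᶠ v, x v = 1 ∧ ∀ u v, x u ≠ 0 → x v ≠ 0 → u ≤ v ∨ v ≤ u}

/-- the cell of the cubulation containing `y` -/
noncomputable def cellOf (y : Fin 5 → ℝ) : Cell := fun i => ⌊y i⌋ + ⌈y i⌉

/-- the subset of `ℝ^5` spanned by a set of cells -/
def Rl (Q : Set Cell) : Set (Fin 5 → ℝ) := {y | cellOf y ∈ Q}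

/-- real translations belonging to the lattice -/
def LatR (P : Per) (w : Fin 5 → ℝ) : Prop := ∃ u : Cell, P.Lat u ∧ ∀ i, w i = (u i : ℝ) / 2

/-! ## Frontiers -/

/-- the open unit cube at the integer point `a`, as a cell -/
def dbl (a : Cell) : Cell := fun i => 2 * a i + 1

/-- cells of the frontier of the union of the unit cubes `∏ [a i, a i + 1]`, `a ∈ K` -/
def Fr (K : Set Cell) : Set Cell := {r | (∃ a ∈ K, Face r (dbl a)) ∧ ∃ a ∉ K, Face r (dbl a)}

/-- the smallest `a` with `r` a face of `dbl a`, one coordinate -/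
def sg (n : ℤ) : ℤ := if n % 2 = 1 then (n - 1) / 2 else if (n / 2) % 2 = 0 then n / 2 else n / 2 - 1

/-- the smallest `a` (in the face order) with `r` a face of `dbl a` -/
def sig (r : Cell) : Cell := fun i => sg (r i)

/-- the cells of `K` which are faces of cells outside `K` -/
def Kb (K : Set Cell) : Set Cell := {s | s ∈ K ∧ ∃ t, t ∉ K ∧ Face s t}

/-- the closed 4-manifold of the periodic complex `K` -/
abbrev XX (P : Per) (K : Set Cell) : Type := ↥(Rz (VQ P.dbl (Fr K)))

/-! ## Labellings -/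

/-- labellings of a poset by a group -/
structure Lab (V : Type) [PartialOrder V] (H : Type) [Group H] where
  f : V → V → H
  mul : ∀ u v w, u ≤ v → v ≤ w → f u v * f v w = f u w

namespace Lab

variable {V W : Type} [PartialOrder V] [PartialOrder W] {G H : Type} [Group G] [Group H]

theorem self (l : Lab V H) (v : V) : l.f v v = 1 := by
  have := l.mul v v v le_rfl le_rfl
  simpa using this

/-- push forward by a homomorphism -/
def map (l : Lab V G) (φ : G →* H) : Lab V H where
  f u v := φ (l.f u v)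
  mul _ _ _ h h' := by rw [← map_mul, l.mul _ _ _ h h']

/-- pull back by a monotone map -/
def comap (l : Lab W H) (s : V →o W) : Lab V H where
  f u v := l.f (s u) (s v)
  mul _ _ _ h h' := l.mul _ _ _ (s.monotone h) (s.monotone h')

open Classical in
/-- symmetrized labelling, meaningful for comparable elements -/
noncomputable def sy (l : Lab V H) (u v : V) : H :=
  if u ≤ v then l.f u v else if v ≤ u then (l.f v u)⁻¹ else 1

/-- gauge equivalence, trivial at the base point -/
def GEq (v0 : V) (l l' : Lab V H) : Prop :=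
  ∃ g : V → H, g v0 = 1 ∧ ∀ u v, u ≤ v → l'.f u v = (g u)⁻¹ * l.f u v * g v

/-- existence of a potential -/
def HasPot (l : Lab V H) : Prop := ∃ g : V → H, ∀ u v, u ≤ v → l.f u v = (g u)⁻¹ * g v

end Lab

/-- `l` is universal among labellings -/
def IsUniv {V : Type} [PartialOrder V] {G : Type} [Group G] (l : Lab V G) (v0 : V) : Prop :=
  ∀ (H : Type) [Group H] (l' : Lab V H), ∃! φ : G →* H, Lab.GEq v0 (l.map φ) l'

/-- connectedness of a poset -/
def Conn (V : Type) [PartialOrder V] : Prop :=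
  ∀ u v : V, Relation.ReflTransGen (fun a b => a ≤ b ∨ b ≤ a) u v

/-- combinatorial simple connectedness of a poset -/
def OneConn (V : Type) [PartialOrder V] : Prop :=
  Nonempty V ∧ Conn V ∧ ∀ (H : Type) [Group H] (l : Lab V H), l.HasPot

/-! ## The maps between the posets -/

theorem sg_even {n : ℤ} (h : n % 2 = 0) : sg n = if (n / 2) % 2 = 0 then n / 2 else n / 2 - 1 := by
  unfold sg
  rw [if_neg (by omega)]

theorem Face.sig {r r' : Cell} (h : Face r r') : Face (sig r) (sig r') := by
  intro i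
  rcases h i with h1 | ⟨⟨b, hb⟩, h2⟩
  · left
    simp only [FM.sig, h1]
  · simp only [FM.sig, sg, Int.odd_iff]
    split_ifs <;> omega

theorem sig_add {r u : Cell} (hu : ∀ i, Even (u i)) : sig (r + (fun i => 2 * u i)) = sig r + u := by
  funext i
  rcases hu i with ⟨k, hk⟩
  simp only [FM.sig, sg, Pi.add_apply]
  split_ifs <;> omega

/-- the largest `a` (in the face order) with `r` a face of `dbl a` -/
def tauc (r : Cell) : Cell := fun i => r i - 1 - sg (r i)

theorem face_sig_tauc (r : Cell) : Face (sig r) (tauc r) := by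
  intro i
  simp only [FM.sig, tauc, sg, Int.odd_iff]
  split_ifs <;> omega

theorem face_dbl_iff {r a : Cell} : Face r (dbl a) ↔ Face (sig r) a ∧ Face a (tauc r) := by
  constructor
  · intro h
    constructor
    · intro i
      have := h i
      simp only [dbl, FM.sig, sg, Int.odd_iff] at this ⊢
      split_ifs <;> omega
    · intro i
      have := h i
      simp only [dbl, tauc, sg, Int.odd_iff] at this ⊢
      split_ifs <;> omega
  · rintro ⟨h1, h2⟩ i
    have h3 := h1 i
    have h4 := h2 i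
    simp only [dbl, FM.sig, tauc, sg, Int.odd_iff] at h3 h4 ⊢
    split_ifs at h3 h4 <;> omega

theorem mem_Fr_iff {K : Set Cell} (hK : IsCplx K) {r : Cell} :
    r ∈ Fr K ↔ sig r ∈ K ∧ tauc r ∉ K := by
  constructor
  · rintro ⟨⟨a, ha, hra⟩, b, hb, hrb⟩
    rw [face_dbl_iff] at hra hrb
    exact ⟨hK a ha _ hra.1, fun h => hb (hK _ h _ hrb.2)⟩
  · rintro ⟨h1, h2⟩
    refine ⟨⟨sig r, h1, ?_⟩, tauc r, h2, ?_⟩
    · rw [face_dbl_iff]; exact ⟨Face.refl _, face_sig_tauc r⟩
    · rw [face_dbl_iff]; exact ⟨face_sig_tauc r, Face.refl _⟩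

theorem isCplx_Fr (K : Set Cell) : IsCplx (Fr K) := by
  rintro y ⟨⟨a, ha, hra⟩, b, hb, hrb⟩ x hx
  exact ⟨⟨a, ha, hx.trans hra⟩, b, hb, hx.trans hrb⟩

theorem Per.Lat.even {P : Per} {u : Cell} (hu : P.Lat u) (i : Fin 5) : Even (u i) := by
  rcases hu i with ⟨k, hk⟩
  rw [hk]
  exact Even.mul_right (by exact_mod_cast P.even i) k

theorem Per.lat_dbl {P : Per} {u : Cell} :
    P.dbl.Lat u ↔ ∃ v : Cell, P.Lat v ∧ u = fun i => 2 * v i := by
  constructor
  · intro h
    have h2 : ∀ i, ∃ k : ℤ, u i = 2 * (P.p i * k) := by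
      intro i
      rcases h i with ⟨k, hk⟩
      refine ⟨k, ?_⟩
      rw [hk]
      simp only [Per.dbl, Per.mul, Nat.cast_mul, Nat.cast_ofNat]
      ring
    choose k hk using h2
    exact ⟨fun i => P.p i * k i, fun i => ⟨k i, rfl⟩, funext hk⟩
  · rintro ⟨v, hv, rfl⟩ i
    rcases hv i with ⟨k, hk⟩
    refine ⟨k, ?_⟩
    simp only [Per.dbl, Per.mul, Nat.cast_mul, Nat.cast_ofNat, hk]
    ring

theorem isPer_Fr {P : Per} {K : Set Cell} (hP : IsPer P K) : IsPer P.dbl (Fr K) := by
  rintro x ⟨⟨a, ha, hra⟩, b, hb, hrb⟩ u hu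
  obtain ⟨v, hv, rfl⟩ := Per.lat_dbl.1 hu
  have key : ∀ c : Cell, dbl (c + v) = dbl c + fun i => 2 * v i := by
    intro c
    funext i
    simp only [dbl, Pi.add_apply]
    ring
  refine ⟨⟨a + v, hP a ha v hv, ?_⟩, b + v, fun h => hb ?_, ?_⟩
  · rw [key]; exact hra.add hu
  · have := hP _ h (-v) hv.neg
    simpa using this
  · rw [key]; exact hrb.add hu

theorem mk_sig {P : Per} {r r' : Cell} (h : mk P.dbl r = mk P.dbl r') :
    mk P (sig r) = mk P (sig r') := by
  obtain ⟨u, hu, rfl⟩ := mk_eq_mk.1 h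
  obtain ⟨v, hv, rfl⟩ := Per.lat_dbl.1 hu
  rw [sig_add (fun i => hv.even i)]
  exact mk_eq_mk.2 ⟨v, hv, rfl⟩

theorem sig_mem_Kb {K : Set Cell} (hK : IsCplx K) {r : Cell} (hr : r ∈ Fr K) : sig r ∈ Kb K := by
  rw [mem_Fr_iff hK] at hr
  exact ⟨hr.1, tauc r, hr.2, face_sig_tauc r⟩

/-- the map `[r] ↦ [sig r]` from the frontier to the boundary cells of `K` -/
noncomputable def sigQ (P : Per) (K : Set Cell) (hK : IsCplx K) :
    VQ P.dbl (Fr K) →o VQ P (Kb K) where
  toFun v := ⟨mk P (sig v.2.choose), sig v.2.choose, sig_mem_Kb hK v.2.choose_spec.1, rfl⟩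
  monotone' := by
    rintro v w ⟨x, y, hx, hy, h⟩
    refine ⟨sig x, sig y, ?_, ?_, h.sig⟩
    · exact mk_sig (hx.trans v.2.choose_spec.2.symm)
    · exact mk_sig (hy.trans w.2.choose_spec.2.symm)

theorem sigQ_mkQ {P : Per} {K : Set Cell} (hK : IsCplx K) {r : Cell} (hr : r ∈ Fr K) :
    sigQ P K hK (mkQ P.dbl r hr) = mkQ P (sig r) (sig_mem_Kb hK hr) := by
  apply Subtype.ext
  exact mk_sig (mkQ P.dbl r hr).2.choose_spec.2

/-! ## Flag sums -/

/-- normalized 4-cocycles with coefficients `Z/2` -/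
structure Coc4 (G : Type) [Group G] where
  c : G → G → G → G → ZMod 2
  norm : ∀ x y z t, x = 1 ∨ y = 1 ∨ z = 1 ∨ t = 1 → c x y z t = 0
  coc : ∀ x y z t u, c y z t u + c (x * y) z t u + c x (y * z) t u + c x y (z * t) u +
    c x y z (t * u) + c x y z t = 0

/-- the value of the cocycle on the sum of all complete flags -/
noncomputable def flagSum {V : Type} [PartialOrder V] {G : Type} [Group G] (c : Coc4 G)
    (l : Lab V G) : ZMod 2 :=
  ∑ᶠ v : {v : Fin 5 → V // StrictMono v},
    c.c (l.f (v.1 0) (v.1 1)) (l.f (v.1 1) (v.1 2)) (l.f (v.1 2) (v.1 3)) (l.f (v.1 3) (v.1 4))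

/-- mod 2 closedness: chains with 4 elements are completed at each place in an even number of ways,
and chains have at most 5 elements -/
def Closed4 (V : Type) [PartialOrder V] : Prop :=
  (∀ v : Fin 4 → V, StrictMono v → ∀ j : Fin 5,
    Even (Nat.card {x : V // StrictMono (j.insertNth x v : Fin 5 → V)})) ∧
  ∀ v : Fin 6 → V, ¬ StrictMono v

end Helper50.FM
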