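import Pool.Agent.Helper50.FM.Defs

/-!
# MP_533548_gt: further definitions (triangulation weights, refinement, stretching, Cech cocycles)
-/

set_option autoImplicit false

namespace Helper50.FM

/-- weight of the cell `r` at the point `y` (barycentric subdivision of the cubulation) -/
noncomputable def wt (r : Cell) (y : Fin 5 → ℝ) : ℝ :=
  max 0
    ((Finset.univ : Finset (Fin 5)).inf' ⟨0, Finset.mem_univ 0⟩
        (fun i => if Even (r i) then 1 - 2 * |y i - (r i : ℝ) / 2| else 1) -
      (Finset.univ : Finset (Fin 5)).sup' ⟨0, Finset.mem_univ 0⟩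
        (fun i => if Even (r i) then 0 else 2 * |y i - (r i : ℝ) / 2|))

/-- the triangulation map -/
noncomputable def Psi (P : Per) (Q : Set Cell) (y : Fin 5 → ℝ) : VQ P Q → ℝ :=
  fun v => ∑ᶠ r : {r : Cell // mk P r = v.1}, wt r.1 y

/-- the cell of the coarse grid containing a cell of the grid refined `m` times, one coordinate -/
def car1 (m n : ℤ) : ℤ := 2 * (n / (2 * m)) + (if n % (2 * m) = 0 then 0 else 1)

/-- the cell of the coarse grid containing a cell of the grid refined `m` times -/
def car (m : ℕ) (x : Cell) : Cell := fun i => car1 m (x i)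

/-- the refinement of `Q` -/
def refn (m : ℕ) (Q : Set Cell) : Set Cell := {x | car m x ∈ Q}

theorem car1_add {m : ℤ} (hm : 0 < m) (n k : ℤ) : car1 m (n + m * (2 * k)) = car1 m n + 2 * k := by
  unfold car1
  have h1 : n + m * (2 * k) = n + k * (2 * m) := by ring
  rw [h1, Int.add_mul_ediv_right _ _ (by omega), Int.add_mul_emod_self_right]
  ring

theorem car1_face {m : ℤ} (hm : 0 < m) {a b : ℤ}
    (h : a = b ∨ (Odd b ∧ (a = b + 1 ∨ a = b - 1))) :
    car1 m a = car1 m b ∨ (Odd (car1 m b) ∧ (car1 m a = car1 m b + 1 ∨ car1 m a = car1 m b - 1)) := by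
  rcases h with h | ⟨⟨c, hc⟩, h⟩
  · left; rw [h]
  · -- `b` odd, so `b` is not divisible by `2 m`
    have hb : b % (2 * m) ≠ 0 := by
      intro h0
      have : (2 * m) ∣ b := Int.dvd_of_emod_eq_zero h0
      have : (2 : ℤ) ∣ b := (Dvd.intro _ rfl).trans this
      omega
    have hodd : Odd (car1 m b) := by
      unfold car1; rw [if_neg hb]; exact ⟨_, rfl⟩
    have e1 := Int.emod_add_mul_ediv b (2 * m)
    have e2 := Int.emod_nonneg b (show (2 * m) ≠ 0 by omega)
    have e3 := Int.emod_lt_of_pos b (show 0 < 2 * m by omega)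
    rcases h with h | h
    · by_cases h4 : b % (2 * m) = 2 * m - 1
      · have h5 : a = (b / (2 * m) + 1) * (2 * m) := by
          rw [h]; nlinarith
        right
        refine ⟨hodd, Or.inl ?_⟩
        unfold car1
        rw [if_neg hb, h5, Int.mul_ediv_cancel _ (by omega), if_pos (by simp)]
        ring
      · left
        have h5 : a = (b % (2 * m) + 1) + (b / (2 * m)) * (2 * m) := by
          rw [h]; nlinarith
        have h6 : a / (2 * m) = b / (2 * m) := by
          rw [h5, Int.add_mul_ediv_right _ _ (by omega),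
            Int.ediv_eq_zero_of_lt (by omega) (by omega)]
          omega
        have h7 : a % (2 * m) = b % (2 * m) + 1 := by
          rw [h5, Int.add_mul_emod_self_right, Int.emod_eq_of_lt (by omega) (by omega)]
        unfold car1
        rw [if_neg hb, h6, if_neg (by omega)]
    · by_cases h4 : b % (2 * m) = 1
      · have h5 : a = (b / (2 * m)) * (2 * m) := by
          rw [h]; nlinarith
        right
        refine ⟨hodd, Or.inr ?_⟩
        unfold car1
        rw [if_neg hb, h5, Int.mul_ediv_cancel _ (by omega), if_pos (by simp)]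
        ring
      · left
        have h5 : a = (b % (2 * m) - 1) + (b / (2 * m)) * (2 * m) := by
          rw [h]; nlinarith
        have h6 : a / (2 * m) = b / (2 * m) := by
          rw [h5, Int.add_mul_ediv_right _ _ (by omega),
            Int.ediv_eq_zero_of_lt (by omega) (by omega)]
          omega
        have h7 : a % (2 * m) = b % (2 * m) - 1 := by
          rw [h5, Int.add_mul_emod_self_right, Int.emod_eq_of_lt (by omega) (by omega)]
        unfold car1
        rw [if_neg hb, h6, if_neg (by omega)]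

theorem Face.car {m : ℕ} (hm : 0 < m) {x y : Cell} (h : Face x y) : Face (car m x) (car m y) :=
  fun i => car1_face (by exact_mod_cast hm) (h i)

theorem Per.lat_mul {P : Per} {m : ℕ} (hm : 0 < m) {u : Cell} :
    (P.mul m hm).Lat u ↔ ∃ v : Cell, P.Lat v ∧ u = fun i => m * v i := by
  constructor
  · intro h
    have h2 : ∀ i, ∃ k : ℤ, u i = m * (P.p i * k) := by
      intro i
      rcases h i with ⟨k, hk⟩
      refine ⟨k, ?_⟩
      rw [hk]
      simp only [Per.mul, Nat.cast_mul]
      ring
    choose k hk using h2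
    exact ⟨fun i => P.p i * k i, fun i => ⟨k i, rfl⟩, funext hk⟩
  · rintro ⟨v, hv, rfl⟩ i
    rcases hv i with ⟨k, hk⟩
    refine ⟨k, ?_⟩
    simp only [Per.mul, Nat.cast_mul, hk]
    ring

theorem car_add {P : Per} {m : ℕ} (hm : 0 < m) (x : Cell) {v : Cell} (hv : P.Lat v) :
    car m (x + fun i => m * v i) = car m x + v := by
  funext i
  obtain ⟨k, hk⟩ := hv.even i
  simp only [car, Pi.add_apply, hk]
  have := car1_add (m := (m : ℤ)) (by exact_mod_cast hm) (x i) k
  rw [← two_mul, this]

theorem isCplx_refn {m : ℕ} (hm : 0 < m) {Q : Set Cell} (hQ : IsCplx Q) : IsCplx (refn m Q) :=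
  fun _ hy _ hx => hQ _ hy _ (hx.car hm)

theorem isPer_refn {P : Per} {m : ℕ} (hm : 0 < m) {Q : Set Cell} (hQ : IsPer P Q) :
    IsPer (P.mul m hm) (refn m Q) := by
  intro x hx u hu
  obtain ⟨v, hv, rfl⟩ := (Per.lat_mul hm).1 hu
  show car m _ ∈ Q
  rw [car_add hm x hv]
  exact hQ _ hx v hv

theorem mk_car {P : Per} {m : ℕ} (hm : 0 < m) {x y : Cell} (h : mk (P.mul m hm) x = mk (P.mul m hm) y) :
    mk P (car m x) = mk P (car m y) := by
  obtain ⟨u, hu, rfl⟩ := mk_eq_mk.1 h
  obtain ⟨v, hv, rfl⟩ := (Per.lat_mul hm).1 hu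
  rw [car_add hm x hv]
  exact mk_eq_mk.2 ⟨v, hv, rfl⟩

/-- the carrier map from the refined poset to the poset -/
noncomputable def carQ (P : Per) (Q : Set Cell) (m : ℕ) (hm : 0 < m) :
    VQ (P.mul m hm) (refn m Q) →o VQ P Q where
  toFun v := ⟨mk P (car m v.2.choose), car m v.2.choose, v.2.choose_spec.1, rfl⟩
  monotone' := by
    rintro v w ⟨x, y, hx, hy, h⟩
    refine ⟨car m x, car m y, ?_, ?_, h.car hm⟩
    · exact mk_car hm (hx.trans v.2.choose_spec.2.symm)
    · exact mk_car hm (hy.trans w.2.choose_spec.2.symm)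

theorem carQ_mkQ {P : Per} {Q : Set Cell} {m : ℕ} (hm : 0 < m) {x : Cell} (hx : x ∈ refn m Q) :
    carQ P Q m hm (mkQ (P.mul m hm) x hx) = mkQ P (car m x) hx := by
  apply Subtype.ext
  exact mk_car hm (mkQ (P.mul m hm) x hx).2.choose_spec.2

/-- the outer region -/
def Oset (H : ℤ) : Set Cell := {x | x 2 ≤ 0 ∨ H ≤ x 2 ∨ x 3 ≤ -2 ∨ 4 ≤ x 3}

/-- a set of cells, ordered by the face relation -/
def FP (S : Set Cell) : Type := {x : Cell // x ∈ S}

instance (S : Set Cell) : PartialOrder (FP S) where
  le a b := Face a.1 b.1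
  le_refl a := Face.refl a.1
  le_trans _ _ _ h h' := Face.trans h h'
  le_antisymm _ _ h h' := Subtype.ext (Face.antisymm h h')

/-- the vertex of the realization -/
noncomputable def vx {V : Type} [PartialOrder V] (v : V) : Rz V := by
  classical
  exact ⟨Pi.single v 1, by
    refine ⟨fun u => ?_, ?_, fun u w hu hw => ?_⟩
    · by_cases h : u = v
      · subst h; simp
      · simp [Pi.single_eq_of_ne h]
    · rw [finsum_eq_single _ v (fun u hu => by simp [Pi.single_eq_of_ne hu])]
      simp
    · have h1 : u = v := by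
        by_contra h
        exact hu (by simp [Pi.single_eq_of_ne h])
      have h2 : w = v := by
        by_contra h
        exact hw (by simp [Pi.single_eq_of_ne h])
      left; rw [h1, h2]⟩

/-- open covers with locally constant transition data -/
structure Coc (X : Type) [TopologicalSpace X] (I : Type) (G : Type) [Group G] where
  U : I → Set X
  op : ∀ i, IsOpen (U i)
  cov : ∀ x, ∃ i, x ∈ U i
  g : I → I → G
  coc : ∀ x i j k, x ∈ U i → x ∈ U j → x ∈ U k → g i j * g j k = g i k

/-- holonomy functions of a cocycle: `h x y i j p` is defined for `x ∈ U i`, `y ∈ U j` -/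
structure IsHol {X : Type} [TopologicalSpace X] {I : Type} {G : Type} [Group G] (c : Coc X I G)
    (h : ∀ x y : X, I → I → Path.Homotopic.Quotient x y → G) : Prop where
  small : ∀ (x y : X) (i j k : I) (p : Path x y), x ∈ c.U i → y ∈ c.U j → (∀ t, p t ∈ c.U k) →
    h x y i j (Path.Homotopic.Quotient.mk p) = c.g i k * c.g k j
  trans : ∀ (x y z : X) (i j k : I) (p : Path.Homotopic.Quotient x y)
    (q : Path.Homotopic.Quotient y z), x ∈ c.U i → y ∈ c.U j → z ∈ c.U k →
    h x z i k (p.trans q) = h x y i j p * h y z j k q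

theorem Lab.sy_of_le {V : Type} [PartialOrder V] {H : Type} [Group H] (l : Lab V H) {u v : V}
    (h : u ≤ v) : l.sy u v = l.f u v := by
  unfold Lab.sy
  rw [if_pos h]

theorem Lab.sy_of_ge {V : Type} [PartialOrder V] {H : Type} [Group H] (l : Lab V H) {u v : V}
    (h : v ≤ u) : l.sy u v = (l.f v u)⁻¹ := by
  unfold Lab.sy
  by_cases h1 : u ≤ v
  · have : u = v := le_antisymm h1 h
    subst this
    rw [if_pos h1, l.self]; simp
  · rw [if_neg h1, if_pos h]

/-- the symmetrized labelling is a cocycle on chains -/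
theorem Lab.sy_mul {V : Type} [PartialOrder V] {H : Type} [Group H] (l : Lab V H) {u v w : V}
    (h1 : u ≤ v ∨ v ≤ u) (h2 : v ≤ w ∨ w ≤ v) (h3 : u ≤ w ∨ w ≤ u) :
    l.sy u v * l.sy v w = l.sy u w := by
  rcases h1 with h1 | h1 <;> rcases h2 with h2 | h2 <;> rcases h3 with h3 | h3
  · rw [l.sy_of_le h1, l.sy_of_le h2, l.sy_of_le h3, l.mul _ _ _ h1 h2]
  · have : u = w := le_antisymm (h1.trans h2) h3
    subst this
    rw [l.sy_of_le h1, l.sy_of_ge h1, l.sy_of_le h3, l.self]; simp
  · rw [l.sy_of_le h1, l.sy_of_ge h2, l.sy_of_le h3, ← l.mul _ _ _ h3 h2]; simp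
  · rw [l.sy_of_le h1, l.sy_of_ge h2, l.sy_of_ge h3, ← l.mul _ _ _ h3 h1]; simp
  · rw [l.sy_of_ge h1, l.sy_of_le h2, l.sy_of_le h3, ← l.mul _ _ _ h1 h3]; simp
  · rw [l.sy_of_ge h1, l.sy_of_le h2, l.sy_of_ge h3, ← l.mul _ _ _ h2 h3]; simp
  · have : u = w := le_antisymm h3 (h2.trans h1)
    subst this
    rw [l.sy_of_ge h1, l.sy_of_le h1, l.sy_of_le h3, l.self]; simp
  · rw [l.sy_of_ge h1, l.sy_of_ge h2, l.sy_of_ge h3, ← l.mul _ _ _ h2 h1]; simp

/-- the cover of the realization by the open stars of the vertices, with the transition data of a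
labelling -/
noncomputable def starCoc {V : Type} [PartialOrder V] {G : Type} [Group G]
    (l : Lab V G) : Coc (Rz V) V G where
  U v := {x | x.1 v ≠ 0}
  op v := by
    have h : Continuous fun x : Rz V => x.1 v := (continuous_apply v).comp continuous_subtype_val
    exact isOpen_ne_fun h continuous_const
  cov x := by
    by_contra h
    push Not at h
    have h0 : ∀ v, x.1 v = 0 := fun v => by simpa using h v
    have := x.2.2.1
    rw [finsum_congr h0, finsum_zero] at this
    exact zero_ne_one this
  g := l.sy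
  coc x u v w hu hv hw := l.sy_mul (x.2.2.2 u v hu hv) (x.2.2.2 v w hv hw) (x.2.2.2 u w hu hw)

/-- compression map of the coordinate in which the odd level `q` has been tripled -/
def cmp1 (q p n : ℤ) : ℤ := q + ((n - q) / (p + 2)) * p + max ((n - q) % (p + 2) - 2) 0

/-- periods with the period in direction 4 increased by 2 -/
def Per.str (P : Per) (h : P.p 4 ≠ 0) : Per where
  p := Function.update P.p 4 (P.p 4 + 2)
  even i := by
    by_cases hi : i = 4
    · subst hi
      rw [Function.update_self]
      exact (P.even 4).add even_two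
    · rw [Function.update_of_ne hi]; exact P.even i
  big i := by
    by_cases hi : i = 4
    · subst hi
      rw [Function.update_self]
      right
      rcases P.big 4 with h' | h'
      · exact absurd h' h
      · omega
    · rw [Function.update_of_ne hi]; exact P.big i

/-- the stretched complex -/
def strK (P : Per) (q : ℤ) (K : Set Cell) : Set Cell :=
  {x | Function.update x 4 (cmp1 q (P.p 4) (x 4)) ∈ K}

end Helper50.FM
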